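import Pool.Agent.Helper65.IC.St

/-! Module KT of project IC (MP_1bacb5_al): number of members of a normal system. -/

set_option autoImplicit false

universe u

namespace Pool.Agent.Helper40.IC

open Subgroup Pool.Agent.Helper58.RK Pool.Agent.Helper65.IC

theorem pKT (hJB : StJB.{u}) : StKT.{u} := by
  intro H _ r m d S hr hn hj L hL hmono n hx
  obtain ⟨G₀, hchar, hind, -, hlcs, -⟩ := main_chain r m d S hr hn hj
  have hG0 : G₀.Normal := inferInstance
  have hds : derivedSeries G₀ (d + 2 * r) = ⊥ :=
    derivedSeries_add d (2 * r) (derivedSeries_of_lcs _ hlcs)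
  choose! x hx1 hx2 using hx
  have hpow : ∀ i < n, ∀ t : ℕ, 0 < t → x i ^ t ∉ L i := by
    intro i hi t ht hmem
    have hne : x i ≠ 1 := fun h => hx2 i hi (h ▸ one_mem _)
    obtain ⟨D, hD, C, hC, hxC, hxD, hDC, hcmp, htf, -⟩ := hj (x i) hne
    rcases hcmp (L i) (hL i) with h | h
    · exact hxD (htf _ hxC t ht (h hmem))
    · exact hx2 i hi (h hxC)
  have hJ := hJB G₀ (d + 2 * r) r (hr.pull G₀.subtype G₀.subtype_injective) hds
    (fun i => (L i).subgroupOf G₀)
    (fun i => by
      have := hn (L i) (hL i)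
      infer_instance)
    (fun i j hij => Subgroup.comap_mono (hmono hij)) (Finset.range n)
    (fun i => ⟨x i ^ G₀.index, Subgroup.pow_index_mem G₀ (x i)⟩) ?_
  · rwa [Finset.card_range] at hJ
  · intro i hi
    have hi' : i < n := Finset.mem_range.1 hi
    refine ⟨?_, ?_⟩
    · rw [Subgroup.mem_subgroupOf]
      exact pow_mem (hx1 i hi') _
    · intro t ht hmem
      rw [Subgroup.mem_subgroupOf] at hmem
      have h1 : x i ^ (G₀.index * t) ∈ L i := by
        rw [pow_mul]
        exact hmem
      exact hpow i hi' _ (Nat.mul_pos (Nat.pos_of_ne_zero hind) ht) h1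

end Pool.Agent.Helper40.IC
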